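import Pool.Agent.Lib_helper99.FGA.Wanted

set_option autoImplicit false

namespace Pool.Agent.FGA

open Finset Pool.Agent.Var35 Pool.Agent.Var73 Pool.Agent.PV Pool.Agent.FGP
open scoped ArithmeticFunction ArithmeticFunction.Moebius

lemma a04_add (A B : ℤ) (P R : ℝ → ℂ) (hP : TP A B P) (hR : TP A B R) :
    TP A B (fun t => P t + R t) := by
  obtain ⟨c, hc⟩ := hP
  obtain ⟨d, hd⟩ := hR
  refine ⟨fun n => c n + d n, fun t => ?_⟩
  simp only [hc, hd]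
  rw [← sum_add_distrib]
  exact sum_congr rfl fun n _ => by ring

lemma a04_sub (A B : ℤ) (P R : ℝ → ℂ) (hP : TP A B P) (hR : TP A B R) :
    TP A B (fun t => P t - R t) := by
  obtain ⟨c, hc⟩ := hP
  obtain ⟨d, hd⟩ := hR
  refine ⟨fun n => c n - d n, fun t => ?_⟩
  simp only [hc, hd]
  rw [← sum_sub_distrib]
  exact sum_congr rfl fun n _ => by ring

lemma a04_sq (A B : ℤ) (N' : ℕ) (P : ℝ → ℂ) (h : TP A B P) (hN : B - A ≤ N') :
    TP (-(N' : ℤ)) N' (fun t => ((‖P t‖ ^ 2 : ℝ) : ℂ)) := by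
  obtain ⟨c, hc⟩ := h
  refine ⟨fun k => ∑ n ∈ Icc A B, ∑ m ∈ Icc A B,
    if n - m = k then c n * (starRingEnd ℂ) (c m) else 0, fun t => ?_⟩
  simp only []
  rw [← Complex.normSq_eq_norm_sq, ← Complex.mul_conj, hc, map_sum, sum_mul_sum]
  have h1 : ∀ k ∈ Icc (-(N' : ℤ)) (N' : ℤ), (∑ n ∈ Icc A B, ∑ m ∈ Icc A B,
      if n - m = k then c n * (starRingEnd ℂ) (c m) else 0) * e (k * t) =
      ∑ n ∈ Icc A B, ∑ m ∈ Icc A B,
        if n - m = k then c n * (starRingEnd ℂ) (c m) * e (k * t) else 0 := by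
    intro k _
    rw [sum_mul]
    refine sum_congr rfl fun n _ => ?_
    rw [sum_mul]
    refine sum_congr rfl fun m _ => ?_
    split_ifs
    · rfl
    · rw [zero_mul]
  refine Eq.trans ?_ (sum_congr rfl h1).symm
  refine Eq.trans ?_ sum_comm
  refine sum_congr rfl fun n hn => ?_
  refine Eq.trans ?_ sum_comm
  refine sum_congr rfl fun m hm => ?_
  rw [mem_Icc] at hn hm
  rw [sum_ite_eq, if_pos (by rw [mem_Icc]; omega)]
  rw [map_mul, ← e_neg]
  have : c n * e (n * t) * ((starRingEnd ℂ) (c m) * e (-(m * t))) =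
      c n * (starRingEnd ℂ) (c m) * (e (n * t) * e (-(m * t))) := by ring
  rw [this, ← e_add]
  congr 2
  push_cast; ring

/-- `Ps = fh + gh + Fh` -/
theorem a04_dec (N K : ℕ) (t : ℝ) : Ps N t = fh N K t + gh N K t + Fh N K t := by
  have h1 : Fh N K t = ((Wt N K t : ℝ) : ℂ) * Ps N t - gh N K t := by
    unfold Fh gh Wt Xc
    push_cast
    rw [sum_mul, ← sum_sub_distrib]
    refine sum_congr rfl fun r _ => ?_
    rw [sum_mul, ← sum_sub_distrib]
    refine sum_congr rfl fun c _ => ?_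
    ring
  rw [h1]
  unfold fh
  push_cast
  ring

lemma a04_mean_mono (M : ℕ) (F G : ℝ → ℝ) (h : ∀ j ∈ range M, F (j / M) ≤ G (j / M)) :
    mean M (range M) F ≤ mean M (range M) G := by
  unfold mean
  exact mul_le_mul_of_nonneg_left (sum_le_sum h) (by positivity)

lemma a04_pt (a b : ℂ) (S : ℝ) (hS : ‖a‖ ≤ S) :
    (‖a + b‖ ^ 2 - ‖b‖ ^ 2) ^ 2 ≤ S ^ 2 * (2 * ‖a‖ ^ 2 + 8 * ‖b‖ ^ 2) := by
  have ha := norm_nonneg a
  have hb := norm_nonneg b
  have h1 : |‖a + b‖ - ‖b‖| ≤ ‖a‖ := by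
    have := abs_norm_sub_norm_le (a + b) b
    rwa [add_sub_cancel_right] at this
  have h3 : ‖a + b‖ ≤ ‖a‖ + ‖b‖ := norm_add_le a b
  have h4 : ‖a + b‖ ^ 2 - ‖b‖ ^ 2 = (‖a + b‖ - ‖b‖) * (‖a + b‖ + ‖b‖) := by ring
  have h5 : |‖a + b‖ ^ 2 - ‖b‖ ^ 2| ≤ S * (‖a‖ + 2 * ‖b‖) := by
    rw [h4, abs_mul, abs_of_nonneg (by positivity : (0 : ℝ) ≤ ‖a + b‖ + ‖b‖)]
    exact mul_le_mul (h1.trans hS) (by linarith) (by positivity) (ha.trans hS)
  have h6 : (‖a + b‖ ^ 2 - ‖b‖ ^ 2) ^ 2 ≤ (S * (‖a‖ + 2 * ‖b‖)) ^ 2 := by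
    rw [← sq_abs]
    exact pow_le_pow_left₀ (abs_nonneg _) h5 2
  refine h6.trans ?_
  rw [mul_pow]
  refine mul_le_mul_of_nonneg_left ?_ (sq_nonneg S)
  nlinarith [sq_nonneg (‖a‖ - 2 * ‖b‖)]

lemma a04_norm3 (a b c : ℂ) : ‖a - b - c‖ ^ 2 ≤ 3 * (‖a‖ ^ 2 + ‖b‖ ^ 2 + ‖c‖ ^ 2) := by
  have h1 : ‖a - b - c‖ ≤ ‖a‖ + ‖b‖ + ‖c‖ :=
    (norm_sub_le _ _).trans (by linarith [norm_sub_le a b])
  have h2 : ‖a - b - c‖ ^ 2 ≤ (‖a‖ + ‖b‖ + ‖c‖) ^ 2 := pow_le_pow_left₀ (norm_nonneg _) h1 2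
  nlinarith [sq_nonneg (‖a‖ - ‖b‖), sq_nonneg (‖a‖ - ‖c‖), sq_nonneg (‖b‖ - ‖c‖)]

/-- A04 : the off-diagonal terms of `fh`, all moduli -/
theorem A04_pr (h04 : FGP.W04) (h05 : FGP.W05) (h07b : FGP.W07b) (h10 : FGP.W10) (h03 : A03) :
    A04 := by
  obtain ⟨C4, hC4, K4, hK4⟩ := h04
  obtain ⟨C5, hC5, K5, hK5⟩ := h05
  obtain ⟨C7, hC7, K7, hK7⟩ := h07b
  obtain ⟨K10, hK10⟩ := h10
  obtain ⟨N1, hN1⟩ := a2_asym 1 one_pos
  set C' : ℝ := 100 + 24 * C7 with hC'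
  refine ⟨Real.sqrt 48 * Real.sqrt C' * C5, by positivity, max (max K4 K5) (max (max K7 K10) N1), ?_⟩
  intro K hK N hR M hG Y hY hEE
  have hKa : K4 ≤ K := le_trans (le_trans (le_max_left _ _) (le_max_left _ _)) hK
  have hKb : K5 ≤ K := le_trans (le_trans (le_max_right _ _) (le_max_left _ _)) hK
  have hKc : K7 ≤ K :=
    le_trans (le_trans (le_trans (le_max_left _ _) (le_max_left _ _)) (le_max_right _ _)) hK
  have hKd : K10 ≤ K :=
    le_trans (le_trans (le_trans (le_max_right _ _) (le_max_left _ _)) (le_max_right _ _)) hK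
  have hKe : N1 ≤ K := le_trans (le_trans (le_max_right _ _) (le_max_right _ _)) hK
  have hKN : K ≤ N := le_trans (Nat.le_self_pow (by norm_num) K) hR.hN
  have hN10 : 10 ≤ N := hR.hK.trans hKN
  have hNr : (0 : ℝ) < N := by positivity
  set L : ℝ := Real.log N with hL
  have hL0 : 0 ≤ L := Real.log_nonneg (by exact_mod_cast (by omega : 1 ≤ N))
  have hM8 : 4 * (2 * N) < M := hG.1
  have hA2 : A2 N ≤ 2 * (N * L) := by
    have := hN1 N (hKe.trans hKN)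
    rw [abs_le] at this
    linarith [this.2]
  have hP : ms M (Ps N) = A2 N := CSA_pars N M (by omega)
  obtain ⟨hW, -⟩ := hK4 K hKa N hR
  have hsup := hK5 K hKb N hR M hG
  have hF := hK7 K hKc N hR M hG
  obtain ⟨hMw, hf, hg, -⟩ := hK10 K hKd N hR
  set S : ℝ := C5 * (N / Real.sqrt K) * (1 + L) ^ 6 with hS
  have hS0 : 0 ≤ S := by positivity
  -- mean squares
  have hfP : ∀ t, ‖fh N K t‖ ≤ ‖Ps N t‖ := by
    intro t
    unfold fh
    rw [norm_mul, Complex.norm_real, Real.norm_eq_abs]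
    have h1 : |1 - Wt N K t| ≤ 1 := by
      rw [abs_le]; constructor <;> linarith [(hW t).1, (hW t).2]
    exact mul_le_of_le_one_right (norm_nonneg _) h1
  have hmf : ms M (fh N K) ≤ 2 * (N * L) := by
    refine le_trans ?_ hA2
    rw [← hP]
    exact a04_mean_mono M _ _ fun j _ => pow_le_pow_left₀ (norm_nonneg _) (hfP _) 2
  have hmF : ms M (Fh N K) ≤ C7 * (N * L) := by
    refine hF.trans ?_
    calc C7 * Real.log N * EE N K ≤ C7 * Real.log N * N :=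
          mul_le_mul_of_nonneg_left hEE (by positivity)
      _ = C7 * (N * L) := by rw [hL]; ring
  have hmg : ms M (gh N K) ≤ (12 + 3 * C7) * (N * L) := by
    have h1 : ms M (gh N K) ≤ 3 * (ms M (Ps N) + ms M (fh N K) + ms M (Fh N K)) := by
      have h2 : ms M (gh N K) ≤ mean M (range M)
          (fun t => 3 * (‖Ps N t‖ ^ 2 + ‖fh N K t‖ ^ 2 + ‖Fh N K t‖ ^ 2)) := by
        refine a04_mean_mono M _ _ fun j _ => ?_
        have h3 : gh N K ((j : ℝ) / M) = Ps N (j / M) - fh N K (j / M) - Fh N K (j / M) := by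
          rw [a04_dec N K]; ring
        rw [h3]
        exact a04_norm3 _ _ _
      refine h2.trans (le_of_eq ?_)
      unfold ms mean
      rw [← mul_sum, sum_add_distrib, sum_add_distrib]
      ring
    rw [hP] at h1
    linarith
  -- the polynomial
  set Φ : ℝ → ℝ := fun t => ‖fh N K t + gh N K t‖ ^ 2 - ‖gh N K t‖ ^ 2 with hΦ
  have hTP : TP (-((2 * N : ℕ) : ℤ)) ((2 * N : ℕ) : ℤ) (fun t => (Φ t : ℂ)) := by
    have h1 := a04_sq _ _ (2 * N) _ (a04_add _ _ _ _ hf hg) (by push_cast; omega)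
    have h2 := a04_sq _ _ (2 * N) _ hg (by push_cast; omega)
    have h3 := a04_sub _ _ _ _ h1 h2
    have h4 : (fun t => (Φ t : ℂ)) = fun t => (((‖fh N K t + gh N K t‖ ^ 2 : ℝ) : ℂ) -
        ((‖gh N K t‖ ^ 2 : ℝ) : ℂ)) := by
      funext t
      rw [hΦ]
      push_cast
      rfl
    rw [h4]
    exact h3
  have h12 := h03 (2 * N) Y M Φ (by omega) hY.hY1 hM8 hTP
  have hlin : ∀ Q : ℕ, (VA (fun t => fh N K t + gh N K t) Q - VA (gh N K) Q) -
      (ms M (fun t => fh N K t + gh N K t) - ms M (gh N K)) =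
      (1 / (Q : ℝ)) * ∑ b ∈ range Q, Φ (b / Q) - mean M (range M) Φ := by
    intro Q
    unfold VA ms mean
    simp only [hΦ]
    rw [sum_sub_distrib, sum_sub_distrib]
    ring
  rw [sum_congr rfl fun Q _ => congrArg abs (hlin Q)]
  refine h12.trans ?_
  have hmΦ : mean M (range M) (fun t => Φ t ^ 2) ≤ S ^ 2 * (C' * (N * L)) := by
    have h1 : mean M (range M) (fun t => Φ t ^ 2) ≤ mean M (range M)
        (fun t => S ^ 2 * (2 * ‖fh N K t‖ ^ 2 + 8 * ‖gh N K t‖ ^ 2)) := by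
      refine a04_mean_mono M _ _ fun j hj => ?_
      exact a04_pt _ _ S (hsup j hj)
    have h2 : mean M (range M) (fun t => S ^ 2 * (2 * ‖fh N K t‖ ^ 2 + 8 * ‖gh N K t‖ ^ 2)) =
        S ^ 2 * (2 * ms M (fh N K) + 8 * ms M (gh N K)) := by
      unfold ms mean
      rw [← mul_sum, sum_add_distrib, ← mul_sum, ← mul_sum]
      ring
    rw [h2] at h1
    refine h1.trans (mul_le_mul_of_nonneg_left ?_ (sq_nonneg S))
    rw [hC']
    linarith
  have hYr : (0 : ℝ) < Y := by exact_mod_cast hY.hY1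
  have hs1 : Real.sqrt (12 * ((2 * N : ℕ) : ℝ) ^ 2 / Y) =
      Real.sqrt 48 * (Real.sqrt N * Real.sqrt ((N : ℝ) / Y)) := by
    rw [← Real.sqrt_mul hNr.le, ← Real.sqrt_mul (by norm_num)]
    congr 1
    push_cast
    field_simp
    ring
  have hs2 : Real.sqrt (mean M (range M) (fun t => Φ t ^ 2)) ≤
      S * (Real.sqrt C' * (Real.sqrt N * (1 + L))) := by
    refine (Real.sqrt_le_sqrt hmΦ).trans ?_
    rw [Real.sqrt_mul (sq_nonneg S), Real.sqrt_sq hS0]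
    refine mul_le_mul_of_nonneg_left ?_ hS0
    rw [Real.sqrt_mul (by positivity), Real.sqrt_mul hNr.le]
    refine mul_le_mul_of_nonneg_left (mul_le_mul_of_nonneg_left ?_ (Real.sqrt_nonneg _))
      (Real.sqrt_nonneg _)
    refine Real.sqrt_le_iff.2 ⟨by positivity, ?_⟩
    nlinarith
  rw [hs1]
  set q : ℝ := Real.sqrt ((N : ℝ) / Y) with hq
  have hq0 : 0 ≤ q := Real.sqrt_nonneg _
  calc Real.sqrt 48 * (Real.sqrt N * q) * Real.sqrt (mean M (range M) (fun t => Φ t ^ 2))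
      ≤ Real.sqrt 48 * (Real.sqrt N * q) * (S * (Real.sqrt C' * (Real.sqrt N * (1 + L)))) :=
        mul_le_mul_of_nonneg_left hs2 (by positivity)
    _ = (Real.sqrt N * Real.sqrt N) * (Real.sqrt 48 * Real.sqrt C' * S * (1 + L) * q) := by ring
    _ = N * (Real.sqrt 48 * Real.sqrt C' * S * (1 + L) * q) := by rw [Real.mul_self_sqrt hNr.le]
    _ = Real.sqrt 48 * Real.sqrt C' * C5 * ((N : ℝ) ^ 2 / Real.sqrt K) * (1 + L) ^ 7 * q := by
        rw [hS]; ring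

end Pool.Agent.FGA
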